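import Mathlib
import Pool.Agent.Helper41.MU.AsmC

/-!
# MP_7d7bd6_gt: a counterexample to Milnor's conjecture on complete umbilic-free surfaces

There is a complete surface in Euclidean 3-space without umbilics, with `k₁² + k₂² ≥ 1/4`
everywhere and with strictly positive Gauss curvature everywhere.

The surface is given by an immersion `f` of the plane `ℝ²` into `ℝ³`; the plane only serves as the
underlying manifold, all metric notions are those of the metric induced by `f`.
-/

set_option autoImplicit false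

open Filter Topology
open scoped ContDiff

namespace Pool.Agent.Results.MP_7d7bd6_gt.MilnorDisproof

/-- the plane `ℝ²` -/
abbrev E2 := EuclideanSpace ℝ (Fin 2)

/-- Euclidean space `ℝ³` -/
abbrev E3 := EuclideanSpace ℝ (Fin 3)

/-- The differential of `f` at `p` in the direction `u`. -/
noncomputable def tangentMap (f : E2 → E3) (p u : E2) : E3 :=
  deriv (fun t : ℝ => f (p + t • u)) 0

/-- `f` is a smooth immersion of the plane into `ℝ³`. -/
def IsImmersion (f : E2 → E3) : Prop :=
  ContDiff ℝ ∞ f ∧ ∀ p : E2, Function.Injective (tangentMap f p)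

/-- The length, for the metric induced by `f`, of the curve `c` restricted to `[0, 1]`. -/
noncomputable def curveLength (f : E2 → E3) (c : ℝ → E2) : ℝ :=
  ∫ t in (0 : ℝ)..1, ‖deriv (fun s => f (c s)) t‖

/-- The distance of the metric induced by `f`: the infimum of the lengths of `C¹` curves. -/
noncomputable def inducedDist (f : E2 → E3) (x y : E2) : ℝ :=
  sInf {L : ℝ | ∃ c : ℝ → E2, ContDiff ℝ 1 c ∧ c 0 = x ∧ c 1 = y ∧ L = curveLength f c}

/-- The metric induced by `f` is complete: sequences which are Cauchy for it converge. -/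
def IsCompleteSurface (f : E2 → E3) : Prop :=
  ∀ x : ℕ → E2,
    (∀ ε : ℝ, 0 < ε → ∃ N : ℕ, ∀ i j : ℕ, N ≤ i → N ≤ j → inducedDist f (x i) (x j) < ε) →
    ∃ a : E2, Tendsto x atTop (𝓝 a) ∧ Tendsto (fun i => inducedDist f (x i) a) atTop (𝓝 0)

/-- The induced metric (first fundamental form) at `p`. -/
noncomputable def firstForm (f : E2 → E3) (p u v : E2) : ℝ :=
  inner ℝ (tangentMap f p u) (tangentMap f p v)

/-- `ν` is a unit normal vector of the surface at the point `f p`. -/
def IsUnitNormal (f : E2 → E3) (p : E2) (ν : E3) : Prop :=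
  ‖ν‖ = 1 ∧ ∀ u : E2, inner ℝ (tangentMap f p u) ν = 0

/-- The second fundamental form at `p` with respect to the unit normal vector `ν`: the inner
product of the second derivative of `f` with `ν`. -/
noncomputable def secondForm (f : E2 → E3) (p : E2) (ν : E3) (u v : E2) : ℝ :=
  inner ℝ (deriv (fun t : ℝ => tangentMap f (p + t • u) v) 0) ν

/-- `k₁, k₂` are the principal curvatures at `p` with respect to `ν`: there is a basis `e₁, e₂`,
orthonormal for the induced metric, in which the second fundamental form is diagonal with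
entries `k₁, k₂`. -/
def ArePrincipal (f : E2 → E3) (p : E2) (ν : E3) (k₁ k₂ : ℝ) : Prop :=
  ∃ e₁ e₂ : E2,
    firstForm f p e₁ e₁ = 1 ∧ firstForm f p e₂ e₂ = 1 ∧ firstForm f p e₁ e₂ = 0 ∧
    secondForm f p ν e₁ e₁ = k₁ ∧ secondForm f p ν e₂ e₂ = k₂ ∧ secondForm f p ν e₁ e₂ = 0

theorem hasDerivAt_line (p u : E2) : HasDerivAt (fun t : ℝ => p + t • u) u 0 := by
  simpa using ((hasDerivAt_id (0 : ℝ)).smul_const u).const_add p

theorem deriv_line {E : Type*} [NormedAddCommGroup E] [NormedSpace ℝ E] {g : E2 → E}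
    (hg : Differentiable ℝ g) (p u : E2) :
    deriv (fun t : ℝ => g (p + t • u)) 0 = fderiv ℝ g p u := by
  have h1 : HasFDerivAt g (fderiv ℝ g p) (p + (0 : ℝ) • u) := by
    rw [zero_smul, add_zero]
    exact (hg p).hasFDerivAt
  exact (h1.comp_hasDerivAt (0 : ℝ) (hasDerivAt_line p u)).deriv

theorem tangentMap_eq {f : E2 → E3} (hf : ContDiff ℝ ∞ f) (p u : E2) :
    tangentMap f p u = fderiv ℝ f p u :=
  deriv_line (hf.differentiable (by simp)) p u

theorem secondForm_eq {f : E2 → E3} (hf : ContDiff ℝ ∞ f) (p : E2) (ν : E3) (u v : E2) :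
    secondForm f p ν u v = Pool.Agent.Helper41.MU.secondForm f p ν u v := by
  unfold secondForm Pool.Agent.Helper41.MU.secondForm
  have h1 : (fun t : ℝ => tangentMap f (p + t • u) v) =
      fun t : ℝ => (fun q => fderiv ℝ f q v) (p + t • u) := by
    funext t
    exact tangentMap_eq hf _ v
  have h2 : Differentiable ℝ (fun q => fderiv ℝ f q v) := by
    have h3 : ContDiff ℝ ∞ (fderiv ℝ f) := hf.fderiv_right (by simp)
    exact (h3.differentiable (by simp)).clm_apply (differentiable_const v)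
  rw [h1, deriv_line h2]

theorem isUnitNormal_iff {f : E2 → E3} (hf : ContDiff ℝ ∞ f) (p : E2) (ν : E3) :
    IsUnitNormal f p ν ↔ Pool.Agent.Helper41.MU.IsUnitNormal f p ν := by
  unfold IsUnitNormal Pool.Agent.Helper41.MU.IsUnitNormal
  constructor
  · rintro ⟨h1, h2⟩
    refine ⟨h1, fun u => ?_⟩
    rw [real_inner_comm, ← tangentMap_eq hf]
    exact h2 u
  · rintro ⟨h1, h2⟩
    refine ⟨h1, fun u => ?_⟩
    rw [real_inner_comm, tangentMap_eq hf]
    exact h2 u

theorem arePrincipal_iff {f : E2 → E3} (hf : ContDiff ℝ ∞ f) (p : E2) (ν : E3) (k₁ k₂ : ℝ) :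
    ArePrincipal f p ν k₁ k₂ ↔ Pool.Agent.Helper41.MU.ArePrincipal f p ν k₁ k₂ := by
  unfold ArePrincipal Pool.Agent.Helper41.MU.ArePrincipal firstForm
  simp only [secondForm_eq hf, tangentMap_eq hf]

/-- There is a smooth immersion `f` of the plane into `ℝ³`, complete for the induced metric, which
at every point has a unit normal and, for every unit normal, principal curvatures, and whose
principal curvatures `k₁, k₂` (with respect to any unit normal at any point) satisfy `k₁ ≠ k₂`
(no umbilics), `k₁² + k₂² ≥ 1/4` and `k₁ k₂ > 0` (the Gauss curvature is positive everywhere, so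
it neither changes sign nor vanishes identically). -/
theorem result : ∃ f : E2 → E3, IsImmersion f ∧ IsCompleteSurface f ∧
    (∀ p : E2, ∃ ν : E3, IsUnitNormal f p ν) ∧
    (∀ (p : E2) (ν : E3), IsUnitNormal f p ν → ∃ k₁ k₂ : ℝ, ArePrincipal f p ν k₁ k₂) ∧
    (∀ (p : E2) (ν : E3) (k₁ k₂ : ℝ), IsUnitNormal f p ν → ArePrincipal f p ν k₁ k₂ →
      k₁ ≠ k₂ ∧ 1 / 4 ≤ k₁ ^ 2 + k₂ ^ 2 ∧ 0 < k₁ * k₂) := by
  obtain ⟨f, ⟨hf, himm⟩, hcomp, h1, h2, h3⟩ := Pool.Agent.Helper41.MU.milnor
  refine ⟨f, ⟨hf, ?_⟩, hcomp, ?_, ?_, ?_⟩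
  · intro p u v huv
    rw [tangentMap_eq hf, tangentMap_eq hf] at huv
    exact himm p huv
  · intro p
    obtain ⟨ν, hν⟩ := h1 p
    exact ⟨ν, (isUnitNormal_iff hf p ν).2 hν⟩
  · intro p ν hν
    obtain ⟨k₁, k₂, hk⟩ := h2 p ν ((isUnitNormal_iff hf p ν).1 hν)
    exact ⟨k₁, k₂, (arePrincipal_iff hf p ν k₁ k₂).2 hk⟩
  · intro p ν k₁ k₂ hν hk
    exact h3 p ν k₁ k₂ ((isUnitNormal_iff hf p ν).1 hν) ((arePrincipal_iff hf p ν k₁ k₂).1 hk)

end Pool.Agent.Results.MP_7d7bd6_gt.MilnorDisproof
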